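import Pool.Agent.Helper22.LIL.Defs

/-! LIL-GEN: second moment for separated scales. -/

open MeasureTheory Filter Set
open scoped Real Topology

namespace Pool.Agent.Helper22.LIL

open Pool.Agent.Helper22.GC Pool.Agent.Helper53.OM

noncomputable section

lemma GEN_ee (t : ℝ) : ee t = Complex.exp ((2 * π * Complex.I) * t) := by
  rw [ee]

lemma GEN_cont (w : ℝ) : Continuous (fun α : ℝ => ee (α * w)) := by
  simp only [GEN_ee]
  fun_prop

lemma GEN_int {w : ℝ} (hw : w ≠ 0) (a b : ℝ) :
    ‖∫ α in a..b, ee (α * w)‖ ≤ 1 / (π * |w|) := by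
  have h1 : ∀ α : ℝ, ee (α * w) = Complex.exp ((2 * π * w * Complex.I) * α) := by
    intro α
    rw [GEN_ee]; congr 1; push_cast; ring
  have hc : (2 * π * w * Complex.I : ℂ) ≠ 0 := by
    have h2 : ((π : ℝ) : ℂ) ≠ 0 := by exact_mod_cast Real.pi_ne_zero
    have h3 : ((w : ℝ) : ℂ) ≠ 0 := by exact_mod_cast hw
    simp [h2, h3]
  simp only [h1]
  rw [integral_exp_mul_complex hc, norm_div]
  have hn : ∀ t : ℝ, ‖Complex.exp ((2 * π * w * Complex.I) * t)‖ = 1 := by
    intro t
    rw [Complex.norm_exp]
    simp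
  have h4 : ‖(2 * π * w * Complex.I : ℂ)‖ = 2 * (π * |w|) := by
    rw [norm_mul, norm_mul, norm_mul, Complex.norm_I, Complex.norm_real, Complex.norm_real,
      Real.norm_eq_abs, Real.norm_eq_abs, abs_of_pos Real.pi_pos]
    simp only [Complex.norm_ofNat, mul_one]
    ring
  rw [h4]
  have h5 : ‖Complex.exp ((2 * π * w * Complex.I) * b) - Complex.exp ((2 * π * w * Complex.I) * a)‖
      ≤ 2 := by
    refine (norm_sub_le _ _).trans ?_
    rw [hn, hn]; norm_num
  have hpw : 0 < π * |w| := mul_pos Real.pi_pos (abs_pos.mpr hw)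
  calc _ ≤ 2 / (2 * (π * |w|)) := by gcongr
    _ = 1 / (π * |w|) := by field_simp

/-- GEN: second moment for separated scales. -/
theorem second_moment {ι : Type} (S : Finset ι) (c : ι → ℂ) (ν : ι → ℝ) {δ B A L : ℝ}
    (hδ : 0 < δ) (hL : 0 < L) (h1 : ∀ i ∈ S, ν i ≠ 0 → δ ≤ |ν i|) (h2 : ∀ i ∈ S, |ν i| ≤ B)
    (hA : ∑ i ∈ S, ‖c i‖ ≤ A) (m : ℕ) (hm : 0 < m) (lam : ℕ → ℝ) (hlam : ∀ j < m, L ≤ lam j)
    (hsep : ∀ i j, i < j → j < m → 2 * B * lam i ≤ δ * lam j) {a b M₂ : ℝ} (hab : a ≤ b)
    (F : ℝ → ℝ) (hF : ∀ x, (F x : ℂ) = ∑ i ∈ S, c i * ee (x * ν i)) (F₀ : ℝ)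
    (hF₀ : (F₀ : ℂ) = ∑ i ∈ S.filter (fun i => ν i = 0), c i)
    (hM : ∀ j < m, ∫ α in a..b, (F (α * lam j) - F₀) ^ 2 ≤ M₂) :
    ∫ α in a..b, ((1 / m : ℝ) * ∑ j ∈ Finset.range m, F (α * lam j) - F₀) ^ 2
      ≤ M₂ / m + 2 * A ^ 2 / (δ * L) := by
  classical
  have hm0 : (0 : ℝ) < m := by exact_mod_cast hm
  set S' := S.filter (fun i => ¬ ν i = 0) with hS'
  set G : ℝ → ℝ := fun x => F x - F₀ with hG
  have hGc : ∀ x, (G x : ℂ) = ∑ i ∈ S', c i * ee (x * ν i) := by
    intro x
    simp only [hG]
    rw [Complex.ofReal_sub, hF, hF₀, ← Finset.sum_filter_add_sum_filter_not S (fun i => ν i = 0)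
      (fun i => c i * ee (x * ν i))]
    have : ∑ i ∈ S.filter (fun i => ν i = 0), c i * ee (x * ν i) =
        ∑ i ∈ S.filter (fun i => ν i = 0), c i := by
      apply Finset.sum_congr rfl
      intro i hi
      rw [(Finset.mem_filter.mp hi).2, mul_zero]
      simp [ee_zero]
    rw [this]
    ring
  have hGcont : ∀ l : ℝ, Continuous (fun α => G (α * l)) := by
    intro l
    have h3 : (fun α => G (α * l)) = fun α => (∑ i ∈ S', c i * ee (α * (l * ν i))).re := by
      funext α
      rw [← Complex.ofReal_re (G (α * l)), hGc]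
      simp only [mul_assoc]
    rw [h3]
    apply Complex.continuous_re.comp
    apply continuous_finsetSum
    intro i _
    exact continuous_const.mul (GEN_cont _)
  have hlampos : ∀ j < m, 0 < lam j := fun j hj => hL.trans_le (hlam j hj)
  have hA0 : 0 ≤ A := (Finset.sum_nonneg (fun i _ => norm_nonneg (c i))).trans hA
  have hA' : ∑ i ∈ S', ‖c i‖ ≤ A :=
    (Finset.sum_le_sum_of_subset_of_nonneg (Finset.filter_subset _ _)
      (fun _ _ _ => norm_nonneg _)).trans hA
  -- cross terms
  have hcross : ∀ j k, j < k → k < m →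
      |∫ α in a..b, G (α * lam j) * G (α * lam k)| ≤ A ^ 2 / (δ * L) := by
    intro j k hjk hk
    have hlj := hlampos j (hjk.trans hk)
    have hlk := hlampos k hk
    have e1 : ((∫ α in a..b, G (α * lam j) * G (α * lam k) : ℝ) : ℂ) =
        ∑ u ∈ S', ∑ v ∈ S', c u * c v * ∫ α in a..b, ee (α * (lam j * ν u + lam k * ν v)) := by
      rw [← intervalIntegral.integral_ofReal]
      have e2 : ∀ α : ℝ, ((G (α * lam j) * G (α * lam k) : ℝ) : ℂ) =
          ∑ u ∈ S', ∑ v ∈ S', c u * c v * ee (α * (lam j * ν u + lam k * ν v)) := by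
        intro α
        rw [Complex.ofReal_mul, hGc, hGc, Finset.sum_mul_sum]
        apply Finset.sum_congr rfl
        intro u _
        apply Finset.sum_congr rfl
        intro v _
        rw [mul_add, ee_add, mul_assoc α, mul_assoc α]
        ring
      simp only [e2]
      rw [intervalIntegral.integral_finsetSum]
      · apply Finset.sum_congr rfl
        intro u _
        rw [intervalIntegral.integral_finsetSum]
        · apply Finset.sum_congr rfl
          intro v _
          rw [intervalIntegral.integral_const_mul]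
        · intro v _
          exact (continuous_const.mul (GEN_cont _)).intervalIntegrable _ _
      · intro u _
        apply Continuous.intervalIntegrable
        apply continuous_finsetSum
        intro v _
        exact continuous_const.mul (GEN_cont _)
    have e3 : |∫ α in a..b, G (α * lam j) * G (α * lam k)| =
        ‖((∫ α in a..b, G (α * lam j) * G (α * lam k) : ℝ) : ℂ)‖ := by
      rw [Complex.norm_real, Real.norm_eq_abs]
    rw [e3, e1]
    have e4 : ∀ u ∈ S', ∀ v ∈ S', ‖∫ α in a..b, ee (α * (lam j * ν u + lam k * ν v))‖ ≤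
        1 / (δ * L) := by
      intro u hu v hv
      obtain ⟨huS, hu0⟩ := Finset.mem_filter.mp hu
      obtain ⟨hvS, hv0⟩ := Finset.mem_filter.mp hv
      have b1 : |lam j * ν u| ≤ δ * lam k / 2 := by
        rw [abs_mul, abs_of_pos hlj]
        have := hsep j k hjk hk
        have h5 : lam j * |ν u| ≤ lam j * B := by
          gcongr; exact h2 u huS
        linarith
      have b2 : δ * lam k ≤ |lam k * ν v| := by
        rw [abs_mul, abs_of_pos hlk, mul_comm]
        gcongr
        exact h1 v hvS hv0
      have b3 : δ * lam k / 2 ≤ |lam j * ν u + lam k * ν v| := by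
        have := abs_sub_abs_le_abs_sub (lam k * ν v) (-(lam j * ν u))
        rw [abs_neg, sub_neg_eq_add, add_comm (lam k * ν v)] at this
        linarith
      have b4 : δ * L / 2 ≤ |lam j * ν u + lam k * ν v| := by
        have := hlam k hk
        have h6 : δ * L ≤ δ * lam k := by gcongr
        linarith
      have hpos : 0 < δ * L / 2 := by positivity
      have hw : lam j * ν u + lam k * ν v ≠ 0 := by
        intro h
        rw [h, abs_zero] at b4
        linarith
      refine (GEN_int hw a b).trans ?_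
      apply one_div_le_one_div_of_le (by positivity)
      have hpi := Real.pi_gt_three
      calc δ * L ≤ 2 * (δ * L / 2) := by linarith
        _ ≤ π * |lam j * ν u + lam k * ν v| := by
            apply mul_le_mul (by linarith) b4 hpos.le Real.pi_pos.le
    calc ‖∑ u ∈ S', ∑ v ∈ S', c u * c v * ∫ α in a..b, ee (α * (lam j * ν u + lam k * ν v))‖
        ≤ ∑ u ∈ S', ∑ v ∈ S', ‖c u‖ * ‖c v‖ * (1 / (δ * L)) := by
          refine (norm_sum_le _ _).trans (Finset.sum_le_sum fun u hu => ?_)
          refine (norm_sum_le _ _).trans (Finset.sum_le_sum fun v hv => ?_)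
          rw [norm_mul, norm_mul]
          gcongr
          exact e4 u hu v hv
      _ = (∑ u ∈ S', ‖c u‖) * (∑ v ∈ S', ‖c v‖) * (1 / (δ * L)) := by
          rw [Finset.sum_mul_sum, Finset.sum_mul]
          apply Finset.sum_congr rfl
          intro u _
          rw [Finset.sum_mul]
      _ ≤ A * A * (1 / (δ * L)) := by
          have : 0 ≤ ∑ v ∈ S', ‖c v‖ := Finset.sum_nonneg (fun _ _ => norm_nonneg _)
          gcongr
      _ = A ^ 2 / (δ * L) := by ring
  have hall : ∀ j ∈ Finset.range m, ∀ k ∈ Finset.range m,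
      ∫ α in a..b, G (α * lam j) * G (α * lam k) ≤ (if j = k then M₂ else 0) + A ^ 2 / (δ * L) := by
    intro j hj k hk
    rw [Finset.mem_range] at hj hk
    have hAp : 0 ≤ A ^ 2 / (δ * L) := by positivity
    rcases lt_trichotomy j k with h | h | h
    · rw [if_neg h.ne, zero_add]
      exact (le_abs_self _).trans (hcross j k h hk)
    · subst h
      rw [if_pos rfl]
      have := hM j hj
      have e : ∀ α, G (α * lam j) * G (α * lam j) = (F (α * lam j) - F₀) ^ 2 := by
        intro α; simp only [hG]; ring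
      simp only [e]
      linarith
    · rw [if_neg h.ne', zero_add]
      have e : ∀ α, G (α * lam j) * G (α * lam k) = G (α * lam k) * G (α * lam j) := by
        intro α; ring
      simp only [e]
      exact (le_abs_self _).trans (hcross k j h hj)
  have hexp : ∀ α, ((1 / m : ℝ) * ∑ j ∈ Finset.range m, F (α * lam j) - F₀) ^ 2 =
      (1 / m : ℝ) ^ 2 * ∑ j ∈ Finset.range m, ∑ k ∈ Finset.range m, G (α * lam j) * G (α * lam k) := by
    intro α
    rw [← Finset.sum_mul_sum]
    have : (1 / m : ℝ) * ∑ j ∈ Finset.range m, F (α * lam j) - F₀ =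
        (1 / m : ℝ) * ∑ j ∈ Finset.range m, G (α * lam j) := by
      simp only [hG]
      rw [Finset.sum_sub_distrib, Finset.sum_const, Finset.card_range, nsmul_eq_mul]
      field_simp
    rw [this]
    ring
  simp only [hexp]
  rw [intervalIntegral.integral_const_mul, intervalIntegral.integral_finsetSum]
  · have e5 : ∀ j ∈ Finset.range m, ∫ α in a..b, ∑ k ∈ Finset.range m, G (α * lam j) * G (α * lam k) =
        ∑ k ∈ Finset.range m, ∫ α in a..b, G (α * lam j) * G (α * lam k) := by
      intro j _
      rw [intervalIntegral.integral_finsetSum]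
      intro k _
      exact ((hGcont _).mul (hGcont _)).intervalIntegrable _ _
    rw [Finset.sum_congr rfl e5]
    calc (1 / m : ℝ) ^ 2 * ∑ j ∈ Finset.range m, ∑ k ∈ Finset.range m,
        ∫ α in a..b, G (α * lam j) * G (α * lam k)
        ≤ (1 / m : ℝ) ^ 2 * ∑ j ∈ Finset.range m, ∑ k ∈ Finset.range m,
          ((if j = k then M₂ else 0) + A ^ 2 / (δ * L)) := by
          gcongr with j hj k hk
          exact hall j hj k hk
      _ = (1 / m : ℝ) ^ 2 * (m * M₂ + m * (m * (A ^ 2 / (δ * L)))) := by
          congr 1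
          simp only [Finset.sum_add_distrib, Finset.sum_const, Finset.card_range, nsmul_eq_mul]
          congr 1
          rw [← nsmul_eq_mul, ← Finset.card_range m, ← Finset.sum_const, Finset.card_range]
          apply Finset.sum_congr rfl
          intro j hj
          rw [Finset.sum_ite_eq, if_pos hj]
      _ = M₂ / m + A ^ 2 / (δ * L) := by field_simp
      _ ≤ M₂ / m + 2 * A ^ 2 / (δ * L) := by
          gcongr
          nlinarith [sq_nonneg A]
  · intro j _
    apply Continuous.intervalIntegrable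
    apply continuous_finsetSum
    intro k _
    exact (hGcont _).mul (hGcont _)

end

end Pool.Agent.Helper22.LIL
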