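import Pool.Agent.Helper55.LIL.LW

/-! LIL-LT: the Riesz product times the Hardy sum as an exponential polynomial. -/

open MeasureTheory Filter Set
open scoped Real Topology ComplexConjugate

namespace Pool.Agent.Helper22.LIL

open Pool.Agent.Helper22.GC Pool.Agent.Helper53.OM

noncomputable section

/-- the frequencies -/
def LT_nu (T : Finset ℕ) (i : (T → ℤ) × (ℕ × ℤ)) : ℝ :=
  ∑ q : T, (i.1 q : ℝ) * √((q : ℕ) : ℝ) + (i.2.2 : ℝ) * √(i.2.1 : ℝ)

/-- the coefficients -/
def LT_c (σ : ℝ) (T : Finset ℕ) (i : (T → ℤ) × (ℕ × ℤ)) : ℂ :=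
  (∏ q : T, Ar σ (i.1 q)) * ((rho i.2.1 : ℂ) * (if i.2.2 = 1 then 2 * g0 else 2 * conj g0))

/-- the index set -/
def LT_S (T : Finset ℕ) (N : ℕ) : Finset ((T → ℤ) × (ℕ × ℤ)) :=
  idx T ×ˢ (Finset.Icc 1 N ×ˢ ({1, -1} : Finset ℤ))

lemma LT_mem {T : Finset ℕ} {N : ℕ} {i : (T → ℤ) × (ℕ × ℤ)} :
    i ∈ LT_S T N ↔ i.1 ∈ idx T ∧ (1 ≤ i.2.1 ∧ i.2.1 ≤ N) ∧ (i.2.2 = 1 ∨ i.2.2 = -1) := by
  simp [LT_S]

/-- The basic alternative: the frequency is bounded below, or the term is one of the diagonal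
terms. -/
lemma LT_alt (hNB : LW_NB) {T : Finset ℕ} {N : ℕ} (hN : T ⊆ sqf N) {x : T → ℤ} (hx : x ∈ idx T)
    {n : ℕ} (hn1 : 1 ≤ n) (hnN : n ≤ N) {s : ℤ} (hs : s = 1 ∨ s = -1) :
    (1 ≤ |∑ q : T, (x q : ℝ) * √((q : ℕ) : ℝ) + (s : ℝ) * √(n : ℝ)| *
      (((T.card : ℝ) + 1) * √N + 1) ^ (2 ^ (T.card + 1))) ∨
    ∃ h : n ∈ T, x = Function.update (0 : T → ℤ) ⟨n, h⟩ (-s) := by
  classical
  have hTsq : ∀ q ∈ T, Squarefree q := fun q hq => (Finset.mem_filter.mp (hN hq)).2
  have hTN : T ⊆ Finset.Icc 1 N := fun q hq => (Finset.mem_filter.mp (hN hq)).1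
  obtain ⟨q', j, hjn, hsq⟩ := Nat.sq_mul_squarefree n
  have hj0 : 0 < j := by
    rcases Nat.eq_zero_or_pos j with h | h
    · subst h; simp at hjn; omega
    · exact h
  have hsqrt : √(n : ℝ) = j * √(q' : ℝ) := by
    have : (n : ℝ) = (j : ℝ) ^ 2 * q' := by exact_mod_cast hjn.symm
    rw [this, Real.sqrt_mul (by positivity), Real.sqrt_sq (by positivity)]
  set S : Finset ℕ := insert q' T with hS
  set c : ℕ → ℤ := fun q => ext0 T x q + (if q = q' then s * j else 0) with hc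
  have hSsq : ∀ q ∈ S, Squarefree q := by
    intro q hq
    rcases Finset.mem_insert.mp hq with rfl | h
    · exact hsq
    · exact hTsq q h
  have hcard : S.card ≤ T.card + 1 := Finset.card_insert_le _ _
  -- sums over `S`
  have hsumext : ∀ f : ℕ → ℤ → ℝ, (∀ q, f q 0 = 0) →
      ∑ q ∈ S, f q (ext0 T x q) = ∑ q ∈ T, f q (ext0 T x q) := by
    intro f hf
    symm
    apply Finset.sum_subset (Finset.subset_insert _ _)
    intro q _ hq
    have : ext0 T x q = 0 := by unfold ext0; rw [dif_neg hq]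
    rw [this, hf]
  have hval : ∑ q ∈ S, (c q : ℝ) * √(q : ℝ) =
      ∑ q : T, (x q : ℝ) * √((q : ℕ) : ℝ) + (s : ℝ) * √(n : ℝ) := by
    rw [← sum_ext0, ← hsumext (fun q e => (e : ℝ) * √(q : ℝ)) (by intro q; simp)]
    have h1 : ∀ q ∈ S, (c q : ℝ) * √(q : ℝ) = ((ext0 T x q : ℤ) : ℝ) * √(q : ℝ) +
        (if q = q' then (s : ℝ) * √(n : ℝ) else 0) := by
      intro q _
      simp only [hc]
      split_ifs with h
      · rw [h, hsqrt]; push_cast; ring
      · push_cast; ring
    rw [Finset.sum_congr rfl h1, Finset.sum_add_distrib, Finset.sum_ite_eq' S q',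
      if_pos (Finset.mem_insert_self _ _)]
  have hsabs : |(s : ℝ)| = 1 := by rcases hs with h | h <;> rw [h] <;> norm_num
  have hB : ∑ q ∈ S, |(c q : ℝ)| * √(q : ℝ) ≤ ((T.card : ℝ) + 1) * √N + 1 := by
    have h1 : ∀ q ∈ S, |(c q : ℝ)| * √(q : ℝ) ≤ |((ext0 T x q : ℤ) : ℝ)| * √(q : ℝ) +
        (if q = q' then √(n : ℝ) else 0) := by
      intro q _
      simp only [hc]
      split_ifs with h
      · push_cast
        have h2 : |((ext0 T x q : ℤ) : ℝ) + s * j| ≤ |((ext0 T x q : ℤ) : ℝ)| + j := by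
          refine (abs_add_le _ _).trans ?_
          rw [abs_mul, hsabs, one_mul, abs_of_nonneg (Nat.cast_nonneg (α := ℝ) j)]
        calc |((ext0 T x q : ℤ) : ℝ) + s * j| * √(q : ℝ)
            ≤ (|((ext0 T x q : ℤ) : ℝ)| + j) * √(q : ℝ) := by gcongr
          _ = |((ext0 T x q : ℤ) : ℝ)| * √(q : ℝ) + √(n : ℝ) := by rw [hsqrt, h]; ring
      · push_cast
        rw [add_zero, add_zero]
    refine (Finset.sum_le_sum h1).trans ?_
    rw [Finset.sum_add_distrib, Finset.sum_ite_eq' S q', if_pos (Finset.mem_insert_self _ _),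
      hsumext (fun q e => |(e : ℝ)| * √(q : ℝ)) (by intro q; simp)]
    have h3 := LW_sum_le hTN hx
    have h4 : √(n : ℝ) ≤ √(N : ℝ) := Real.sqrt_le_sqrt (by exact_mod_cast hnN)
    linarith
  by_cases hex : ∃ q ∈ S, c q ≠ 0
  · left
    have hB1 := LW_one_le_B T N
    have h1 := hNB hSsq c hex hB1 hB
    rw [hval] at h1
    refine h1.trans ?_
    apply mul_le_mul_of_nonneg_left _ (abs_nonneg _)
    exact pow_le_pow_right₀ hB1 (Nat.pow_le_pow_right (by norm_num) hcard)
  · right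
    push Not at hex
    have h1 : ext0 T x q' + s * j = 0 := by
      have := hex q' (Finset.mem_insert_self _ _)
      simpa [hc] using this
    have h2 : q' ∈ T := by
      by_contra hq'
      have h3 : ext0 T x q' = 0 := by unfold ext0; rw [dif_neg hq']
      rw [h3, zero_add] at h1
      rcases hs with h | h <;> rw [h] at h1 <;> omega
    have h3 : ext0 T x q' = x ⟨q', h2⟩ := by unfold ext0; rw [dif_pos h2]
    have h4 : j = 1 := by
      have h5 := mem_idx.mp hx ⟨q', h2⟩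
      rw [h3] at h1
      rcases hs with h | h <;> rw [h] at h1 <;> rcases h5 with h6 | h6 | h6 <;> rw [h6] at h1 <;> omega
    have h5 : n = q' := by rw [← hjn, h4]; ring
    subst h5
    refine ⟨h2, ?_⟩
    funext q
    by_cases hq : q = ⟨n, h2⟩
    · subst hq
      rw [Function.update_self]
      rw [h3, h4] at h1
      push_cast at h1
      omega
    · rw [Function.update_of_ne hq]
      have hqn : (q : ℕ) ≠ n := fun h => hq (Subtype.ext h)
      have := hex q (Finset.mem_insert_of_mem q.2)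
      simp only [hc, if_neg hqn, add_zero, ext0_coe] at this
      rw [this]
      rfl

lemma LT_norm_g0 : ‖2 * g0‖ ≤ 1 / 2 ∧ ‖2 * conj g0‖ ≤ 1 / 2 := by
  have hn : ∀ t : ℝ, ‖ee t‖ = 1 := by
    intro t
    rw [ee, Complex.norm_exp]
    simp
  have h1 : ‖g0‖ = 1 / (4 * π) := by
    rw [g0_eq, norm_div, hn, Complex.norm_real, Real.norm_eq_abs,
      abs_of_pos (by positivity)]
  have h2 : ‖conj g0‖ = ‖g0‖ := Complex.norm_conj g0
  have h3 : 1 / (4 * π) ≤ 1 / 4 := by
    have := Real.pi_gt_three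
    apply one_div_le_one_div_of_le (by norm_num)
    linarith
  constructor
  · rw [norm_mul, h1]
    simp only [Complex.norm_ofNat]
    linarith
  · rw [norm_mul, h2, h1]
    simp only [Complex.norm_ofNat]
    linarith

/-- the zero frequencies -/
lemma LT_zero (hNB : LW_NB) {T : Finset ℕ} (σ : ℝ) {N : ℕ} (hN : T ⊆ sqf N) :
    ∑ i ∈ (LT_S T N).filter (fun i => LT_nu T i = 0), LT_c σ T i =
      ((σ / (2 * π) * ∑ q ∈ T, rho q : ℝ) : ℂ) := by
  classical
  -- the diagonal terms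
  set φ : T × ℤ → (T → ℤ) × (ℕ × ℤ) := fun p =>
    (Function.update (0 : T → ℤ) p.1 (-p.2), ((p.1 : ℕ), p.2)) with hφ
  have hφinj : Function.Injective φ := by
    rintro ⟨q, s⟩ ⟨q', s'⟩ h
    simp only [hφ, Prod.mk.injEq] at h
    exact Prod.ext (Subtype.ext h.2.1) h.2.2
  have hset : (LT_S T N).filter (fun i => LT_nu T i = 0) =
      (Finset.univ ×ˢ ({1, -1} : Finset ℤ)).image φ := by
    ext ⟨x, n, s⟩
    rw [Finset.mem_filter, LT_mem, Finset.mem_image]
    constructor
    · rintro ⟨⟨hx, ⟨hn1, hnN⟩, hs⟩, h0⟩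
      simp only at hx hn1 hnN hs
      rcases LT_alt hNB hN hx hn1 hnN hs with h | ⟨h, hxe⟩
      · exfalso
        unfold LT_nu at h0
        simp only at h0
        rw [h0] at h
        norm_num at h
      · refine ⟨(⟨n, h⟩, s), ?_, ?_⟩
        · simp only [Finset.mem_product, Finset.mem_univ, Finset.mem_insert,
            Finset.mem_singleton, true_and]
          exact hs
        · simp only [hφ]
          rw [hxe]
    · rintro ⟨⟨q, t⟩, ht, he⟩
      simp only [Finset.mem_product, Finset.mem_univ, Finset.mem_insert,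
        Finset.mem_singleton, true_and] at ht
      simp only [hφ, Prod.mk.injEq] at he
      obtain ⟨rfl, rfl, rfl⟩ := he
      have hqN := Finset.mem_Icc.mp (Finset.mem_filter.mp (hN q.2)).1
      refine ⟨⟨?_, hqN, ht⟩, ?_⟩
      · refine mem_idx.mpr fun q' => ?_
        simp only
        by_cases hq : q' = q
        · rw [hq, Function.update_self]
          rcases ht with h | h <;> rw [h] <;> simp
        · rw [Function.update_of_ne hq]
          simp
      · unfold LT_nu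
        simp only
        rw [Finset.sum_eq_single q]
        · rw [Function.update_self]; push_cast; ring
        · intro q' _ hq
          rw [Function.update_of_ne hq]
          simp
        · intro h; exact absurd (Finset.mem_univ _) h
  rw [hset, Finset.sum_image (fun a _ b _ h => hφinj h), Finset.sum_product]
  have hterm : ∀ (q : T) (t : ℤ), LT_c σ T (φ (q, t)) =
      Ar σ (-t) * ((rho q : ℂ) * (if t = 1 then 2 * g0 else 2 * conj g0)) := by
    intro q t
    unfold LT_c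
    simp only [hφ]
    rw [Finset.prod_eq_single q]
    · rw [Function.update_self]
    · intro q' _ hq
      rw [Function.update_of_ne hq]
      simp [Ar]
    · intro h; exact absurd (Finset.mem_univ _) h
  have hq : ∀ q : T, ∑ t ∈ ({1, -1} : Finset ℤ), LT_c σ T (φ (q, t)) =
      ((σ / (2 * π) : ℝ) : ℂ) * (rho q : ℂ) := by
    intro q
    rw [Finset.sum_insert (by decide), Finset.sum_singleton, hterm, hterm, if_pos rfl,
      if_neg (by norm_num), neg_neg, ← coef_eq]
    ring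
  rw [Finset.sum_congr rfl (fun q _ => hq q), ← Finset.mul_sum, Complex.ofReal_mul,
    Complex.ofReal_sum, ← Finset.sum_coe_sort T]

theorem WrTK_poly_of (hNB : LW_NB) {T : Finset ℕ} {σ : ℝ} (hσ : |σ| ≤ 1) {N : ℕ} (hN : T ⊆ sqf N) :
    ∃ (ι : Type) (S : Finset ι) (c : ι → ℂ) (ν : ι → ℝ),
      (∀ i ∈ S, ν i ≠ 0 → 1 ≤ |ν i| * (((T.card : ℝ) + 1) * √N + 1) ^ (2 ^ (T.card + 1))) ∧
      (∀ i ∈ S, |ν i| ≤ ((T.card : ℝ) + 1) * √N) ∧
      ∑ i ∈ S, ‖c i‖ ≤ 2 ^ T.card * ∑ n ∈ Finset.Icc 1 N, rho n ∧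
      (∀ x, ((Wr σ T x * TK N x : ℝ) : ℂ) = ∑ i ∈ S, c i * ee (x * ν i)) ∧
      ((σ / (2 * π) * ∑ q ∈ T, rho q : ℝ) : ℂ) = ∑ i ∈ S.filter (fun i => ν i = 0), c i := by
  classical
  have hTN : T ⊆ Finset.Icc 1 N := fun q hq => (Finset.mem_filter.mp (hN hq)).1
  refine ⟨(T → ℤ) × (ℕ × ℤ), LT_S T N, LT_c σ T, LT_nu T, ?_, ?_, ?_, ?_, (LT_zero hNB σ hN).symm⟩
  · rintro ⟨x, n, s⟩ hi hν
    obtain ⟨hx, ⟨hn1, hnN⟩, hs⟩ := LT_mem.mp hi
    simp only at hx hn1 hnN hs
    rcases LT_alt hNB hN hx hn1 hnN hs with h | ⟨h, hxe⟩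
    · exact h
    · exfalso
      apply hν
      unfold LT_nu
      simp only
      rw [hxe, Finset.sum_eq_single (⟨n, h⟩ : T)]
      · rw [Function.update_self]; push_cast; ring
      · intro q' _ hq
        rw [Function.update_of_ne hq]
        simp
      · intro h; exact absurd (Finset.mem_univ _) h
  · rintro ⟨x, n, s⟩ hi
    obtain ⟨hx, ⟨hn1, hnN⟩, hs⟩ := LT_mem.mp hi
    simp only at hx hn1 hnN hs
    unfold LT_nu
    simp only
    refine (abs_add_le _ _).trans ?_
    have h1 := LW_abs_sum_le hTN hx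
    have hsabs : |(s : ℝ)| = 1 := by rcases hs with h | h <;> rw [h] <;> norm_num
    have h2 : |(s : ℝ) * √(n : ℝ)| ≤ √(N : ℝ) := by
      rw [abs_mul, hsabs, one_mul, abs_of_nonneg (Real.sqrt_nonneg _)]
      exact Real.sqrt_le_sqrt (by exact_mod_cast hnN)
    linarith
  · have h1 : ∑ i ∈ LT_S T N, ‖LT_c σ T i‖ = (∑ x ∈ idx T, ‖∏ q : T, Ar σ (x q)‖) *
        ∑ n ∈ Finset.Icc 1 N, ∑ t ∈ ({1, -1} : Finset ℤ), rho n * ‖(if t = 1 then 2 * g0 else 2 * conj g0)‖ := by
      unfold LT_S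
      rw [Finset.sum_product, Finset.sum_mul]
      apply Finset.sum_congr rfl
      intro x _
      rw [Finset.sum_product, Finset.mul_sum]
      apply Finset.sum_congr rfl
      intro n _
      rw [Finset.mul_sum]
      apply Finset.sum_congr rfl
      intro t _
      unfold LT_c
      simp only
      rw [norm_mul, norm_mul, Complex.norm_real, Real.norm_eq_abs, abs_of_nonneg (rho_nonneg n)]
    rw [h1]
    have h2 : ∀ n ∈ Finset.Icc 1 N, ∑ t ∈ ({1, -1} : Finset ℤ),
        rho n * ‖(if t = 1 then 2 * g0 else 2 * conj g0)‖ ≤ rho n := by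
      intro n _
      rw [Finset.sum_insert (by decide), Finset.sum_singleton, if_pos rfl, if_neg (by norm_num)]
      have h3 := LT_norm_g0
      have h4 := rho_nonneg n
      nlinarith [h3.1, h3.2]
    have h3 := LW_norm_Ar hσ T
    have h4 : 0 ≤ ∑ n ∈ Finset.Icc 1 N, ∑ t ∈ ({1, -1} : Finset ℤ),
        rho n * ‖(if t = 1 then 2 * g0 else 2 * conj g0)‖ := by
      apply Finset.sum_nonneg; intro n _
      apply Finset.sum_nonneg; intro t _
      exact mul_nonneg (rho_nonneg n) (norm_nonneg _)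
    calc _ ≤ 2 ^ T.card * ∑ n ∈ Finset.Icc 1 N, ∑ t ∈ ({1, -1} : Finset ℤ),
        rho n * ‖(if t = 1 then 2 * g0 else 2 * conj g0)‖ := by gcongr
      _ ≤ 2 ^ T.card * ∑ n ∈ Finset.Icc 1 N, rho n := by
          gcongr with n hn
          exact h2 n hn
  · intro y
    rw [Complex.ofReal_mul, Wr_expand, TK_complex]
    unfold LT_S
    rw [Finset.sum_product, Finset.sum_mul]
    apply Finset.sum_congr rfl
    intro x _
    rw [Finset.sum_product, Finset.mul_sum]
    apply Finset.sum_congr rfl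
    intro n _
    rw [Finset.sum_insert (by decide), Finset.sum_singleton]
    unfold LT_c LT_nu
    simp only
    rw [if_pos trivial, if_neg (show (-1 : ℤ) ≠ 1 by norm_num), mul_add y, mul_add y, ee_add, ee_add]
    ring

end

end Pool.Agent.Helper22.LIL
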