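import Pool.Agent.Helper22.LIL.Defs

/-! LIL-LW: the Riesz product as an exponential polynomial. -/

open MeasureTheory Filter Set
open scoped Real Topology

namespace Pool.Agent.Helper22.LIL

open Pool.Agent.Helper22.GC Pool.Agent.Helper53.OM

noncomputable section

/-- the statement of the lower bound for linear forms -/
def LW_NB : Prop := ∀ {S : Finset ℕ}, (∀ q ∈ S, Squarefree q) → ∀ (c : ℕ → ℤ),
    (∃ q ∈ S, c q ≠ 0) → ∀ {B : ℝ}, 1 ≤ B → (∑ q ∈ S, |(c q : ℝ)| * √(q : ℝ) ≤ B) →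
    1 ≤ |∑ q ∈ S, (c q : ℝ) * √(q : ℝ)| * B ^ (2 ^ S.card)

lemma LW_abs_le_one {T : Finset ℕ} {x : T → ℤ} (hx : x ∈ idx T) (q : T) : |((x q : ℤ) : ℝ)| ≤ 1 := by
  rcases mem_idx.mp hx q with h | h | h <;> rw [h] <;> norm_num

lemma LW_ext_abs {T : Finset ℕ} {x : T → ℤ} (hx : x ∈ idx T) (q : ℕ) : |((ext0 T x q : ℤ) : ℝ)| ≤ 1 := by
  unfold ext0
  split_ifs with h
  · exact LW_abs_le_one hx _
  · norm_num

/-- the total size of the frequencies -/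
lemma LW_sum_le {T : Finset ℕ} {N : ℕ} (hN : T ⊆ Finset.Icc 1 N) {x : T → ℤ} (hx : x ∈ idx T) :
    ∑ q ∈ T, |((ext0 T x q : ℤ) : ℝ)| * √(q : ℝ) ≤ T.card * √N := by
  calc ∑ q ∈ T, |((ext0 T x q : ℤ) : ℝ)| * √(q : ℝ) ≤ ∑ _q ∈ T, √(N : ℝ) := by
        apply Finset.sum_le_sum
        intro q hq
        have h1 := LW_ext_abs hx q
        have h2 : √(q : ℝ) ≤ √(N : ℝ) := by
          apply Real.sqrt_le_sqrt
          exact_mod_cast (Finset.mem_Icc.mp (hN hq)).2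
        calc |((ext0 T x q : ℤ) : ℝ)| * √(q : ℝ) ≤ 1 * √(q : ℝ) := by gcongr
          _ ≤ √(N : ℝ) := by rw [one_mul]; exact h2
    _ = T.card * √N := by rw [Finset.sum_const, nsmul_eq_mul]

lemma LW_abs_sum_le {T : Finset ℕ} {N : ℕ} (hN : T ⊆ Finset.Icc 1 N) {x : T → ℤ} (hx : x ∈ idx T) :
    |∑ q : T, (x q : ℝ) * √((q : ℕ) : ℝ)| ≤ T.card * √N := by
  rw [← sum_ext0]
  refine (Finset.abs_sum_le_sum_abs _ _).trans (le_trans (le_of_eq ?_) (LW_sum_le hN hx))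
  apply Finset.sum_congr rfl
  intro q _
  rw [abs_mul, abs_of_nonneg (Real.sqrt_nonneg _)]

/-- the total size of the coefficients -/
lemma LW_norm_Ar {σ : ℝ} (hσ : |σ| ≤ 1) (T : Finset ℕ) :
    ∑ x ∈ idx T, ‖∏ q : T, Ar σ (x q)‖ ≤ 2 ^ T.card := by
  have h1 : ∑ x ∈ idx T, ‖∏ q : T, Ar σ (x q)‖ = ∏ _q : T, ∑ j ∈ ({-1, 0, 1} : Finset ℤ), ‖Ar σ j‖ := by
    rw [Finset.prod_univ_sum]
    apply Finset.sum_congr rfl
    intro x _
    rw [norm_prod]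
  rw [h1]
  have h2 : ∑ j ∈ ({-1, 0, 1} : Finset ℤ), ‖Ar σ j‖ ≤ 2 := by
    have hn : ∀ t : ℝ, ‖ee t‖ = 1 := by
      intro t
      rw [ee, Complex.norm_exp]
      simp
    rw [Finset.sum_insert (by decide), Finset.sum_insert (by decide), Finset.sum_singleton]
    simp only [Ar]
    rw [if_neg (show (-1 : ℤ) ≠ 0 by norm_num), if_pos trivial,
      if_neg (show (1 : ℤ) ≠ 0 by norm_num), norm_mul, norm_mul, hn, hn]
    have h3 : ‖(σ / 2 : ℂ)‖ = |σ| / 2 := by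
      rw [norm_div, Complex.norm_real, Real.norm_eq_abs]; norm_num
    rw [h3, norm_one]
    linarith
  calc ∏ _q : T, ∑ j ∈ ({-1, 0, 1} : Finset ℤ), ‖Ar σ j‖ ≤ ∏ _q : T, (2 : ℝ) := by
        apply Finset.prod_le_prod
        · intro q _; exact Finset.sum_nonneg (fun _ _ => norm_nonneg _)
        · intro q _; exact h2
    _ = 2 ^ T.card := by rw [Finset.prod_const, Finset.card_univ, Fintype.card_coe]

lemma LW_one_le_B (T : Finset ℕ) (N : ℕ) : 1 ≤ ((T.card : ℝ) + 1) * √N + 1 := by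
  have : 0 ≤ ((T.card : ℝ) + 1) * √N := by positivity
  linarith

theorem Wr_poly_of (hNB : LW_NB) {T : Finset ℕ} (hT : ∀ q ∈ T, Squarefree q) {σ : ℝ} (hσ : |σ| ≤ 1) {N : ℕ}
    (hN : T ⊆ Finset.Icc 1 N) :
    ∃ (ι : Type) (S : Finset ι) (c : ι → ℂ) (ν : ι → ℝ),
      (∀ i ∈ S, ν i ≠ 0 → 1 ≤ |ν i| * (((T.card : ℝ) + 1) * √N + 1) ^ (2 ^ (T.card + 1))) ∧
      (∀ i ∈ S, |ν i| ≤ ((T.card : ℝ) + 1) * √N) ∧ ∑ i ∈ S, ‖c i‖ ≤ 2 ^ T.card ∧
      (∀ x, (Wr σ T x : ℂ) = ∑ i ∈ S, c i * ee (x * ν i)) ∧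
      (1 : ℂ) = ∑ i ∈ S.filter (fun i => ν i = 0), c i := by
  have hB1 := LW_one_le_B T N
  have hsum : ∀ x ∈ idx T, ∑ q ∈ T, |((ext0 T x q : ℤ) : ℝ)| * √(q : ℝ) ≤ ((T.card : ℝ) + 1) * √N + 1 := by
    intro x hx
    have h1 := LW_sum_le hN hx
    have h2 : 0 ≤ √(N : ℝ) := Real.sqrt_nonneg _
    nlinarith
  have hex : ∀ x : T → ℤ, x ≠ 0 → ∃ q ∈ T, ext0 T x q ≠ 0 := by
    intro x hx0
    by_contra hcon
    push Not at hcon
    apply hx0
    funext q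
    rw [← ext0_coe x q]
    exact hcon q q.2
  refine ⟨(T → ℤ), idx T, fun x => ∏ q : T, Ar σ (x q), fun x => ∑ q : T, (x q : ℝ) * √((q : ℕ) : ℝ),
    ?_, ?_, LW_norm_Ar hσ T, fun x => Wr_expand σ T x, ?_⟩
  · intro x hx hν
    have hx0 : x ≠ 0 := by
      rintro rfl
      apply hν
      simp
    have h1 := hNB hT (ext0 T x) (hex x hx0) hB1 (hsum x hx)
    rw [sum_ext0] at h1
    refine h1.trans ?_
    apply mul_le_mul_of_nonneg_left _ (abs_nonneg _)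
    exact pow_le_pow_right₀ hB1 (Nat.pow_le_pow_right (by norm_num) (by omega))
  · intro x hx
    refine (LW_abs_sum_le hN hx).trans ?_
    gcongr
    linarith
  · have h1 : (idx T).filter (fun x => ∑ q : T, (x q : ℝ) * √((q : ℕ) : ℝ) = 0) = {0} := by
      ext x
      rw [Finset.mem_filter, Finset.mem_singleton]
      constructor
      · rintro ⟨hx, h0⟩
        by_contra hx0
        have h1 := hNB hT (ext0 T x) (hex x hx0) hB1 (hsum x hx)
        rw [sum_ext0, h0] at h1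
        norm_num at h1
      · rintro rfl
        exact ⟨mem_idx.mpr (fun q => by simp), by simp⟩
    rw [h1, Finset.sum_singleton]
    simp [Ar]

end

end Pool.Agent.Helper22.LIL
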